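import Pool.Agent.R877.RN.Stm

/-! Project RN (MP_6ec3b3_gt), piece BOUND. -/

namespace R877.RN
open Matrix Filter Topology

theorem bd_qf {n : ℕ} (l X : Mat n) (p : Fin n) : qf X (l p) = (l * X * lᵀ) p p := by
  simp only [qf, dotProduct, mulVec, Matrix.mul_apply, transpose_apply, Finset.mul_sum,
    Finset.sum_mul]
  rw [Finset.sum_comm]
  refine Finset.sum_congr rfl fun i _ => Finset.sum_congr rfl fun j _ => ?_
  ring

theorem bd_one {n : ℕ} {l : Mat n} (hl : IsO l) (p : Fin n) : (l p) ⬝ᵥ (l p) = 1 := by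
  have h := congrFun (congrFun hl p) p
  rw [Matrix.mul_apply] at h
  simpa [dotProduct] using h

theorem bd_asym {n : ℕ} (c : Mat n) (μ : Br n) (h : Asym μ) : Asym (act c μ) := by
  intro i j k
  simp only [act]
  rw [Finset.sum_comm, ← Finset.sum_neg_distrib]
  refine Finset.sum_congr rfl fun p _ => ?_
  rw [← Finset.sum_neg_distrib]
  refine Finset.sum_congr rfl fun q _ => ?_
  rw [← Finset.sum_neg_distrib]
  refine Finset.sum_congr rfl fun r _ => ?_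
  rw [h q p r]
  ring

theorem bd_com {n : ℕ} {l : Mat n} (hl : IsO l) (N : Mat n) :
    com (l * N * lᵀ) = l * com N * lᵀ := by
  have hl' : lᵀ * l = 1 := mul_eq_one_comm.mp hl
  have e1 : (l * N * lᵀ) * (l * N * lᵀ)ᵀ = l * (N * Nᵀ) * lᵀ := by
    rw [transpose_mul, transpose_mul, transpose_transpose]
    calc l * N * lᵀ * (l * (Nᵀ * lᵀ)) = l * N * (lᵀ * l) * (Nᵀ * lᵀ) := by
          simp only [Matrix.mul_assoc]
      _ = _ := by rw [hl', Matrix.mul_one]; simp only [Matrix.mul_assoc]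
  have e2 : (l * N * lᵀ)ᵀ * (l * N * lᵀ) = l * (Nᵀ * N) * lᵀ := by
    rw [transpose_mul, transpose_mul, transpose_transpose]
    calc l * (Nᵀ * lᵀ) * (l * N * lᵀ) = l * Nᵀ * (lᵀ * l) * (N * lᵀ) := by
          simp only [Matrix.mul_assoc]
      _ = _ := by rw [hl', Matrix.mul_one]; simp only [Matrix.mul_assoc]
  simp only [com]
  rw [e1, e2, Matrix.mul_sub, Matrix.sub_mul]

theorem bd_tr {n : ℕ} {l : Mat n} (hl : IsO l) (X : Mat n) :
    (l * X * lᵀ).trace = X.trace := by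
  have hl' : lᵀ * l = 1 := mul_eq_one_comm.mp hl
  rw [Matrix.trace_mul_comm, ← Matrix.mul_assoc, hl', Matrix.one_mul]

theorem bd_fro {n : ℕ} (N : Mat n) : ∑ i, ∑ j, (N i j)^2 = (N * Nᵀ).trace := by
  simp only [Matrix.trace, Matrix.diag, Matrix.mul_apply, transpose_apply]
  refine Finset.sum_congr rfl fun i _ => Finset.sum_congr rfl fun j _ => ?_
  ring

theorem bd_fro_inv {n : ℕ} {l : Mat n} (hl : IsO l) (N : Mat n) :
    ∑ i, ∑ j, ((l * N * lᵀ) i j)^2 = ∑ i, ∑ j, (N i j)^2 := by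
  have hl' : lᵀ * l = 1 := mul_eq_one_comm.mp hl
  rw [bd_fro, bd_fro, ← bd_tr hl (N * Nᵀ)]
  congr 1
  rw [transpose_mul, transpose_mul, transpose_transpose]
  calc l * N * lᵀ * (l * (Nᵀ * lᵀ)) = l * N * (lᵀ * l) * (Nᵀ * lᵀ) := by
        simp only [Matrix.mul_assoc]
    _ = _ := by rw [hl', Matrix.mul_one]; simp only [Matrix.mul_assoc]

theorem bd_br (h1 : P_MTR) {n : ℕ} (μ : Br n) (hA : Asym μ) :
    ∑ i, ∑ j, ∑ k, (μ i j k)^2 = -4 * (Mm μ).trace := by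
  have h := h1 n μ (fun _ => 1) hA
  have e : (Mm μ).trace = ∑ i, (1 : ℝ) * Mm μ i i := by
    simp [Matrix.trace, Matrix.diag]
  rw [e, h, ← mul_assoc, Finset.mul_sum]
  refine Finset.sum_congr rfl fun i _ => ?_
  rw [Finset.mul_sum]
  refine Finset.sum_congr rfl fun j _ => ?_
  rw [Finset.mul_sum]
  refine Finset.sum_congr rfl fun k _ => ?_
  ring

theorem bd_w {i k : ℕ} (h : i < k) : (3 : ℝ) * 3 ^ i ≤ 3 ^ k := by
  have : (3 : ℝ) ^ (i + 1) ≤ 3 ^ k := pow_le_pow_right₀ (by norm_num) h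
  rw [pow_succ] at this
  linarith

theorem p_BOUND (h1 : P_MTR) (h2 : P_MROT) : P_BOUND := by
  intro n K
  refine ⟨4 * |K| * ∑ p : Fin n, (3 : ℝ) ^ (p : ℕ), ?_⟩
  intro μ N hA hT hq
  obtain ⟨l, hl, hν, hN⟩ := hT
  have hAν : Asym (act l μ) := bd_asym l μ hA
  have e1 : Mm (act l μ) = l * Mm μ * lᵀ := h2 n l μ hl
  have e2 := bd_com hl N
  have e3 : ∀ p, Mm (act l μ) p p + (1/2) * com (l * N * lᵀ) p p ≤ K := by
    intro p
    have h := hq (l p)
    rw [bd_qf, bd_one hl, mul_one, Matrix.mul_add, Matrix.add_mul, Matrix.mul_smul,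
      Matrix.smul_mul, ← e1, ← e2] at h
    simpa using h
  have e4 : ∑ p : Fin n, (3 : ℝ) ^ (p : ℕ) * (Mm (act l μ) p p + (1/2) * com (l * N * lᵀ) p p) ≤
      |K| * ∑ p : Fin n, (3 : ℝ) ^ (p : ℕ) := by
    rw [mul_comm, Finset.sum_mul]
    refine Finset.sum_le_sum fun p _ => ?_
    exact mul_le_mul_of_nonneg_left ((e3 p).trans (le_abs_self K)) (by positivity)
  -- the bracket part
  have e5 : (1/4) * ∑ i, ∑ j, ∑ k, (act l μ i j k)^2 ≤
      ∑ p : Fin n, (3 : ℝ) ^ (p : ℕ) * Mm (act l μ) p p := by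
    rw [h1 n (act l μ) (fun p => (3 : ℝ) ^ (p : ℕ)) hAν]
    refine mul_le_mul_of_nonneg_left ?_ (by norm_num)
    refine Finset.sum_le_sum fun i _ => Finset.sum_le_sum fun j _ => Finset.sum_le_sum fun k _ => ?_
    by_cases h0 : act l μ i j k = 0
    · rw [h0]; simp
    · obtain ⟨hik, hjk⟩ := hν i j k h0
      have w1 := bd_w (show (i : ℕ) < k from hik)
      have w2 := bd_w (show (j : ℕ) < k from hjk)
      have w3 : (1 : ℝ) ≤ 3 ^ (i : ℕ) := one_le_pow₀ (by norm_num)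
      have w4 : (1 : ℝ) ≤ 3 ^ (j : ℕ) := one_le_pow₀ (by norm_num)
      have w5 : (1 : ℝ) ≤ 3 ^ (k : ℕ) - 3 ^ (i : ℕ) - 3 ^ (j : ℕ) := by linarith
      have := mul_le_mul_of_nonneg_right w5 (sq_nonneg (act l μ i j k))
      linarith
  -- the operator part
  have e6 : ∑ i, ∑ j, ((l * N * lᵀ) i j)^2 ≤
      ∑ p : Fin n, (3 : ℝ) ^ (p : ℕ) * com (l * N * lᵀ) p p := by
    have e7 : ∑ p : Fin n, (3 : ℝ) ^ (p : ℕ) * com (l * N * lᵀ) p p =
        ∑ p : Fin n, ∑ q : Fin n, ((3 : ℝ) ^ (p : ℕ) - 3 ^ (q : ℕ)) * ((l * N * lᵀ) p q)^2 := by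
      have e8 : ∑ p : Fin n, (3 : ℝ) ^ (p : ℕ) * com (l * N * lᵀ) p p =
          ∑ p : Fin n, ∑ q : Fin n, (3 : ℝ) ^ (p : ℕ) * ((l * N * lᵀ) p q)^2 -
          ∑ p : Fin n, ∑ q : Fin n, (3 : ℝ) ^ (p : ℕ) * ((l * N * lᵀ) q p)^2 := by
        rw [← Finset.sum_sub_distrib]
        refine Finset.sum_congr rfl fun p _ => ?_
        rw [← Finset.mul_sum, ← Finset.mul_sum, ← mul_sub]
        congr 1
        simp only [com, Matrix.sub_apply]
        rw [Matrix.mul_apply, Matrix.mul_apply]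
        simp only [transpose_apply, sq]
      rw [e8, Finset.sum_comm (f := fun (p q : Fin n) => (3 : ℝ) ^ (p : ℕ) * ((l * N * lᵀ) q p)^2),
        ← Finset.sum_sub_distrib]
      refine Finset.sum_congr rfl fun p _ => ?_
      rw [← Finset.sum_sub_distrib]
      refine Finset.sum_congr rfl fun q _ => ?_
      ring
    rw [e7]
    refine Finset.sum_le_sum fun i _ => Finset.sum_le_sum fun j _ => ?_
    by_cases h0 : (l * N * lᵀ) i j = 0
    · rw [h0]; simp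
    · have hij := hN i j h0
      have w1 := bd_w (show (j : ℕ) < i from hij)
      have w3 : (1 : ℝ) ≤ 3 ^ (j : ℕ) := one_le_pow₀ (by norm_num)
      have w5 : (1 : ℝ) ≤ 3 ^ (i : ℕ) - 3 ^ (j : ℕ) := by linarith
      have := mul_le_mul_of_nonneg_right w5 (sq_nonneg ((l * N * lᵀ) i j))
      linarith
  have e9 : ∑ p : Fin n, (3 : ℝ) ^ (p : ℕ) * (Mm (act l μ) p p + (1/2) * com (l * N * lᵀ) p p) =
      ∑ p : Fin n, (3 : ℝ) ^ (p : ℕ) * Mm (act l μ) p p +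
      (1/2) * ∑ p : Fin n, (3 : ℝ) ^ (p : ℕ) * com (l * N * lᵀ) p p := by
    rw [Finset.mul_sum, ← Finset.sum_add_distrib]
    exact Finset.sum_congr rfl fun p _ => by ring
  have n1 : ∑ i, ∑ j, ∑ k, (act l μ i j k)^2 = ∑ i, ∑ j, ∑ k, (μ i j k)^2 := by
    rw [bd_br h1 _ hAν, bd_br h1 _ hA, e1, bd_tr hl]
  have n2 := bd_fro_inv hl N
  have p1 : 0 ≤ ∑ i, ∑ j, ∑ k, (μ i j k)^2 :=
    Finset.sum_nonneg fun i _ => Finset.sum_nonneg fun j _ => Finset.sum_nonneg fun k _ =>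
      sq_nonneg _
  have p2 : 0 ≤ ∑ i, ∑ j, (N i j)^2 :=
    Finset.sum_nonneg fun i _ => Finset.sum_nonneg fun j _ => sq_nonneg _
  rw [n1] at e5
  rw [n2] at e6
  constructor <;> linarith

end R877.RN
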